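import Pool.Agent.P.MP_dbf8df_co.Bridge

namespace Pool.Agent.Results.MP_dbf8df_co.Integrality

open Pool.Agent.P.MP_dbf8df_co

/-- Integrality in the b-conjecture.  For the Jack symmetric functions `J` (which exist), `m ≥ 1`
and partitions `ρ 0, ρ 1, ρ 2` of `m`, the coefficient `h` is an integer combination of the
polynomials `b ^ (d - 2 j) (1 + b) ^ j`, where `d = m + 2 - ℓ(ρ 0) - ℓ(ρ 1) - ℓ(ρ 2)`, and so is
`i m_i(ρ W) h / m` for each alphabet `W` and each part size `i`. -/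
theorem result : (∃ J, IsJack J) ∧
    ∀ J, IsJack J → ∀ m : ℕ, 1 ≤ m → ∀ ρ : Fin 3 → m.Partition, ∀ e : ℕ,
      (e = m ∨ ∃ (W : Fin 3) (i : ℕ), e = i * (ρ W).parts.count i) →
      IntForm ((m : ℤ) + 2 - ∑ W : Fin 3, ((ρ W).parts.card : ℤ))
        ((e : RatFunc ℚ) / (m : RatFunc ℚ) * hc J m ρ) := by
  refine ⟨exists_jack, fun J hJ m hm ρ e he => IntForm_of ?_⟩
  rcases he with rfl | ⟨W, i, rfl⟩
  · rw [div_self (Nat.cast_ne_zero.2 (by omega)), one_mul]
    exact plain_hc hJ hm ρ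
  · exact rooted_hc hJ hm ρ W i

end Pool.Agent.Results.MP_dbf8df_co.Integrality
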